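import Pool.Agent.W907.SG.Defs

/-!
# Homology spheres: general finite simplicial complexes

`V` is a finite linearly ordered vertex set, a family of faces is a `Set (Finset V)`. The chains are functions
`c : Finset V → F`, with the boundary operator `bd F` of `Pool.Agent.W907.SG`. Degrees are cardinalities of faces.
For a convex family `D` of faces, `Cyc D i` and `Bdy D i` are the cycles and the boundaries of the relative complex.
-/

set_option autoImplicit false

namespace Pool.Agent.V8H27.GC

open Pool.Agent.W907.SG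

variable {F : Type} [Field F] {V : Type} [Fintype V] [LinearOrder V]

/-- `c` is supported on the faces in `D` with `i` elements -/
def Sup (D : Set (Finset V)) (i : ℕ) (c : Finset V → F) : Prop := ∀ T, ¬ (T ∈ D ∧ T.card = i) → c T = 0

/-- the cycles of the family `D` -/
def Cyc (D : Set (Finset V)) (i : ℕ) (c : Finset V → F) : Prop := Sup D i c ∧ ∀ T ∈ D, bd F c T = 0

/-- the boundaries of the family `D` -/
def Bdy (D : Set (Finset V)) (i : ℕ) (c : Finset V → F) : Prop := ∃ e, Sup D (i + 1) e ∧ ∀ T ∈ D, bd F e T = c T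

/-- the homology in degree `i` is zero -/
def H0 (F : Type) [Field F] {V : Type} [Fintype V] [LinearOrder V] (D : Set (Finset V)) (i : ℕ) : Prop :=
  ∀ c : Finset V → F, Cyc D i c → Bdy D i c

/-- the homology in degree `i` has dimension one -/
def H1 (F : Type) [Field F] {V : Type} [Fintype V] [LinearOrder V] (D : Set (Finset V)) (i : ℕ) : Prop :=
  ∃ z : Finset V → F, Cyc D i z ∧ ¬ Bdy D i z ∧ ∀ c, Cyc D i c → ∃ a : F, Bdy D i (c - a • z)

/-- the homology of `D` in degree `i` and of `D'` in degree `j` are isomorphic -/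
def Iso (F : Type) [Field F] {V : Type} [Fintype V] [LinearOrder V] (D : Set (Finset V)) (i : ℕ)
    (D' : Set (Finset V)) (j : ℕ) : Prop :=
  ∃ φ : (Finset V → F) →ₗ[F] (Finset V → F), (∀ c, Cyc D i c → Cyc D' j (φ c)) ∧
    (∀ c, Cyc D i c → (Bdy D' j (φ c) ↔ Bdy D i c)) ∧ ∀ c', Cyc D' j c' → ∃ c, Cyc D i c ∧ Bdy D' j (c' - φ c)

/-- a family of faces which contains everything between two members -/
def Convex (D : Set (Finset V)) : Prop := ∀ S ∈ D, ∀ T ∈ D, ∀ R : Finset V, S ⊆ R → R ⊆ T → R ∈ D

/-- `K` without the faces which do not contain `σ` -/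
def up (K : Set (Finset V)) (σ : Finset V) : Set (Finset V) := {T | T ∈ K ∧ σ ⊆ T}

/-- `K` is a simplicial complex, and a homology manifold over `F` with the homology of the sphere of dimension `n - 1` -/
structure GS (F : Type) [Field F] {V : Type} [Fintype V] [LinearOrder V] (n : ℕ) (K : Set (Finset V)) : Prop where
  dn : ∀ T ∈ K, ∀ S, S ⊆ T → S ∈ K
  top : ∀ σ ∈ K, H1 F (up K σ) n
  oth : ∀ σ ∈ K, ∀ i, i ≠ n → H0 F (up K σ) i

/-- stellar subdivision at the face `A` with the new vertex `m` -/
def star {V : Type} [LinearOrder V] (A : Finset V) (m : V) (K : Set (Finset V)) : Set (Finset V) :=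
  {T | (T ∈ K ∨ (m ∈ T ∧ T.erase m ∪ A ∈ K)) ∧ ¬ A ⊆ T}

/-- PL spheres of dimension `n - 1`: the complexes which are obtained from the boundary of a simplex by stellar
subdivisions and their inverses -/
inductive PLC {V : Type} [LinearOrder V] (n : ℕ) : Set (Finset V) → Prop
  /-- the boundary of a simplex with `n + 1` vertices -/
  | base (W : Finset V) : W.card = n + 1 → PLC n {T | T ⊂ W}
  /-- stellar subdivision at a face, with a new vertex -/
  | star (K : Set (Finset V)) (A : Finset V) (m : V) : PLC n K → A ∈ K → A.Nonempty → (∀ T ∈ K, m ∉ T) →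
      PLC n (star A m K)
  /-- the inverse of a stellar subdivision -/
  | unstar (K : Set (Finset V)) (A : Finset V) (m : V) : (∀ T ∈ K, ∀ S, S ⊆ T → S ∈ K) → A ∈ K → A.Nonempty →
      (∀ T ∈ K, m ∉ T) → PLC n (star A m K) → PLC n K

end Pool.Agent.V8H27.GC
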