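import Pool.Agent.V8H27.GC.M
import Pool.Agent.V8H63.GC.Fin
import Pool.Agent.R782.Bal.Hom
import Pool.Agent.TH652.QDef
import Pool.Agent.N504.RS.TwoDef

/-!
# Flag complexes: from relative complexes to links
-/

set_option autoImplicit false

noncomputable section

namespace Pool.Agent.V8H27.GC

open Pool.Agent.W907.SG
open Pool.Agent.W907.SM (lk)

variable {F : Type} [Field F] {V : Type} [Fintype V] [LinearOrder V]

/-- the faces which contain `S₁` and are disjoint to `S₂`, in the link of `S₂` -/
def half (K : Set (Finset V)) (S₁ S₂ : Finset V) : Set (Finset V) := {T | S₁ ⊆ T ∧ Disjoint T S₂ ∧ T ∪ S₂ ∈ K}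

theorem half_step (K : Set (Finset V)) {S₁ S₂ : Finset V} {m : V} (h1 : m ∉ S₁) (h2 : m ∉ S₂) (i : ℕ) :
    Eqv F (half K (insert m S₁) S₂) (i + 1) (half K S₁ (insert m S₂)) i := by
  have h := iso_shift (F := F) (D := half K S₁ (insert m S₂)) m
    (fun T hT hm => Finset.disjoint_left.1 hT.2.1 hm (Finset.mem_insert_self _ _)) i
  have he : {T | m ∈ T ∧ T.erase m ∈ half K S₁ (insert m S₂)} = half K (insert m S₁) S₂ := by
    ext T
    have hu : m ∈ T → T.erase m ∪ insert m S₂ = T ∪ S₂ := by
      intro hm
      rw [Finset.union_insert, ← Finset.insert_union, Finset.insert_erase hm]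
    constructor
    · rintro ⟨hm, h3, h4, h5⟩
      refine ⟨Finset.insert_subset hm (h3.trans (Finset.erase_subset _ _)), ?_, ?_⟩
      · rw [Finset.disjoint_left]
        intro x hx hx2
        rw [Finset.disjoint_left] at h4
        refine h4 (Finset.mem_erase.2 ⟨?_, hx⟩) (Finset.mem_insert_of_mem hx2)
        rintro rfl
        exact h2 hx2
      · rw [hu hm] at h5
        exact h5
    · rintro ⟨h3, h4, h5⟩
      have hm : m ∈ T := h3 (Finset.mem_insert_self _ _)
      refine ⟨hm, ?_, ?_, ?_⟩
      · intro x hx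
        refine Finset.mem_erase.2 ⟨?_, h3 (Finset.mem_insert_of_mem hx)⟩
        rintro rfl
        exact h1 hx
      · rw [Finset.disjoint_left] at h4 ⊢
        intro x hx hx2
        rcases Finset.mem_insert.1 hx2 with h6 | h6
        · exact (Finset.mem_erase.1 hx).1 h6
        · exact h4 (Finset.mem_erase.1 hx).2 h6
      · rw [hu hm]
        exact h5
  rw [he] at h
  exact h.eqv

theorem half_all (K : Set (Finset V)) (S₁ : Finset V) : ∀ (S₂ : Finset V), Disjoint S₁ S₂ → ∀ i : ℕ,
    Eqv F (half K S₁ S₂) (i + S₁.card) (half K ∅ (S₁ ∪ S₂)) i := by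
  induction S₁ using Finset.induction_on with
  | empty =>
    intro S₂ _ i
    rw [Finset.card_empty, Finset.empty_union]
    exact ⟨Iff.rfl, Iff.rfl⟩
  | insert m S₁ hm ih =>
    intro S₂ hd i
    have h2 : m ∉ S₂ := fun h => Finset.disjoint_left.1 hd (Finset.mem_insert_self _ _) h
    have h3 : Disjoint S₁ (insert m S₂) := by
      rw [Finset.disjoint_left] at hd ⊢
      intro x hx hx2
      rcases Finset.mem_insert.1 hx2 with h6 | h6
      · exact hm (h6 ▸ hx)
      · exact hd (Finset.mem_insert_of_mem hx) h6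
    have h4 := half_step (F := F) K hm h2 (i + S₁.card)
    have h5 := ih (insert m S₂) h3 i
    have h6 : S₁ ∪ insert m S₂ = insert m S₁ ∪ S₂ := by
      rw [Finset.union_insert, Finset.insert_union]
    rw [h6] at h5
    rw [Finset.card_insert_of_notMem hm, ← Nat.add_assoc]
    exact h4.trans h5

/-- the relative complex of `S` and the link of `S` -/
theorem up_link (G : SimpleGraph V) {S : Finset V} (hS : G.IsClique (S : Set V)) (i : ℕ) :
    Eqv F (up {T : Finset V | G.IsClique (T : Set V)} S) (i + S.card)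
      {T : Finset V | G.IsClique (T : Set V) ∧ (T : Set V) ⊆ lk G S} i := by
  have h := half_all (F := F) {T : Finset V | G.IsClique (T : Set V)} S ∅ (Finset.disjoint_empty_right _) i
  have h1 : half {T : Finset V | G.IsClique (T : Set V)} S ∅ = up {T : Finset V | G.IsClique (T : Set V)} S := by
    ext T
    constructor
    · rintro ⟨h1, _, h2⟩
      rw [Finset.union_empty] at h2
      exact ⟨h2, h1⟩
    · rintro ⟨h1, h2⟩
      refine ⟨h2, Finset.disjoint_empty_right _, ?_⟩
      rw [Finset.union_empty]
      exact h1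
  have h2 : half {T : Finset V | G.IsClique (T : Set V)} ∅ (S ∪ ∅) =
      {T : Finset V | G.IsClique (T : Set V) ∧ (T : Set V) ⊆ lk G S} := by
    rw [Finset.union_empty]
    ext T
    constructor
    · rintro ⟨_, h3, h4⟩
      have h4 : G.IsClique ((T ∪ S : Finset V) : Set V) := h4
      refine ⟨h4.subset (by exact_mod_cast Finset.subset_union_left), fun x hx u hu => ?_⟩
      have hx : x ∈ T := hx
      refine h4 ?_ ?_ ?_
      · exact_mod_cast Finset.mem_union_left _ hx
      · exact_mod_cast Finset.mem_union_right _ hu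
      · rintro rfl
        exact Finset.disjoint_left.1 h3 hx hu
    · rintro ⟨h3, h4⟩
      refine ⟨Finset.empty_subset _, ?_, ?_⟩
      · rw [Finset.disjoint_left]
        intro x hx hx2
        exact G.loopless.irrefl x (h4 (show x ∈ (T : Set V) from hx) x hx2)
      · show G.IsClique ((T ∪ S : Finset V) : Set V)
        intro x hx y hy hne
        have hx : x ∈ T ∪ S := hx
        have hy : y ∈ T ∪ S := hy
        rcases Finset.mem_union.1 hx with hx | hx <;> rcases Finset.mem_union.1 hy with hy | hy
        · exact h3 hx hy hne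
        · exact h4 (show x ∈ (T : Set V) from hx) y hy
        · exact (h4 (show y ∈ (T : Set V) from hy) x hx).symm
        · exact hS hx hy hne
  rw [h1, h2] at h
  exact h

/-- **Flag complexes**: the Betti numbers of all the links -/
theorem beta_link {n : ℕ} (G : SimpleGraph V) (ρ : V → F →ₗ[F] F) (hr : ∀ v x, ρ v x = -x)
    (h : GS F n {T : Finset V | G.IsClique (T : Set V)}) (S : Finset V) (hS : G.IsClique (S : Set V)) (i : ℕ) :
    beta G ρ (lk G S) ∅ i = if i + S.card = n then 1 else 0 := by
  have h1 := up_link (F := F) G hS i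
  split_ifs with hi
  · refine Pool.Agent.V8H63.GC.beta1 G ρ hr (lk G S) i (h1.2.1 ?_)
    rw [hi]
    exact h.top S hS
  · exact Pool.Agent.V8H63.GC.beta0 G ρ hr (lk G S) i (h1.1.1 (h.oth S hS _ hi))

theorem toHSph {n : ℕ} (G : SimpleGraph V) (h : GS ℝ n {T : Finset V | G.IsClique (T : Set V)}) :
    Pool.Agent.TH652.Above.HSph n G :=
  fun S hS i => beta_link G (fun _ => (- LinearMap.id : ℝ →ₗ[ℝ] ℝ)) (fun _ _ => rfl) h S hS i

theorem toHSph2 {n : ℕ} (G : SimpleGraph V) (h : GS (ZMod 2) n {T : Finset V | G.IsClique (T : Set V)}) :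
    Pool.Agent.N504.RS.Two.HSph2 n G :=
  fun S hS i => beta_link G Pool.Agent.R782.Bal.tr2 (fun _ x => (CharTwo.neg_eq x).symm) h S hS i

end Pool.Agent.V8H27.GC
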