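import Pool.Agent.V8H27.GC.Defs

/-!
# Homology of families of faces: the chain level
-/

set_option autoImplicit false
set_option linter.unusedSectionVars false

noncomputable section

namespace Pool.Agent.V8H27.GC

open Pool.Agent.W907.SG

variable {F : Type} [Field F] {V : Type} [Fintype V] [LinearOrder V]

theorem Sup.add {D : Set (Finset V)} {i : ℕ} {c d : Finset V → F} (hc : Sup D i c) (hd : Sup D i d) :
    Sup D i (c + d) := fun T hT => by rw [Pi.add_apply, hc T hT, hd T hT, add_zero]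

theorem Sup.sub {D : Set (Finset V)} {i : ℕ} {c d : Finset V → F} (hc : Sup D i c) (hd : Sup D i d) :
    Sup D i (c - d) := fun T hT => by rw [Pi.sub_apply, hc T hT, hd T hT, sub_zero]

theorem Sup.smul {D : Set (Finset V)} {i : ℕ} {c : Finset V → F} (a : F) (hc : Sup D i c) :
    Sup D i (a • c) := fun T hT => by rw [Pi.smul_apply, hc T hT, smul_zero]

theorem Sup.neg {D : Set (Finset V)} {i : ℕ} {c : Finset V → F} (hc : Sup D i c) :
    Sup D i (-c) := fun T hT => by rw [Pi.neg_apply, hc T hT, neg_zero]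

theorem Cyc.add {D : Set (Finset V)} {i : ℕ} {c d : Finset V → F} (hc : Cyc D i c) (hd : Cyc D i d) :
    Cyc D i (c + d) := ⟨hc.1.add hd.1, fun T hT => by rw [map_add, Pi.add_apply, hc.2 T hT, hd.2 T hT, add_zero]⟩

theorem Cyc.sub {D : Set (Finset V)} {i : ℕ} {c d : Finset V → F} (hc : Cyc D i c) (hd : Cyc D i d) :
    Cyc D i (c - d) := ⟨hc.1.sub hd.1, fun T hT => by rw [map_sub, Pi.sub_apply, hc.2 T hT, hd.2 T hT, sub_zero]⟩

theorem Cyc.smul {D : Set (Finset V)} {i : ℕ} {c : Finset V → F} (a : F) (hc : Cyc D i c) :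
    Cyc D i (a • c) := ⟨hc.1.smul a, fun T hT => by rw [map_smul, Pi.smul_apply, hc.2 T hT, smul_zero]⟩

theorem Bdy.add {D : Set (Finset V)} {i : ℕ} {c d : Finset V → F} (hc : Bdy D i c) (hd : Bdy D i d) :
    Bdy D i (c + d) := by
  obtain ⟨e, h1, h2⟩ := hc
  obtain ⟨e', h3, h4⟩ := hd
  exact ⟨e + e', h1.add h3, fun T hT => by rw [map_add, Pi.add_apply, Pi.add_apply, h2 T hT, h4 T hT]⟩

theorem Bdy.sub {D : Set (Finset V)} {i : ℕ} {c d : Finset V → F} (hc : Bdy D i c) (hd : Bdy D i d) :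
    Bdy D i (c - d) := by
  obtain ⟨e, h1, h2⟩ := hc
  obtain ⟨e', h3, h4⟩ := hd
  exact ⟨e - e', h1.sub h3, fun T hT => by rw [map_sub, Pi.sub_apply, Pi.sub_apply, h2 T hT, h4 T hT]⟩

theorem Bdy.smul {D : Set (Finset V)} {i : ℕ} {c : Finset V → F} (a : F) (hc : Bdy D i c) :
    Bdy D i (a • c) := by
  obtain ⟨e, h1, h2⟩ := hc
  exact ⟨a • e, h1.smul a, fun T hT => by rw [map_smul, Pi.smul_apply, Pi.smul_apply, h2 T hT]⟩

theorem Iso.symm0 {D D' : Set (Finset V)} {i j : ℕ} (h : Iso F D i D' j) : H0 F D i ↔ H0 F D' j := by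
  obtain ⟨φ, h1, h2, h3⟩ := h
  constructor
  · intro h0 c' hc'
    obtain ⟨c, hc, hb⟩ := h3 c' hc'
    have h4 := hb.add ((h2 c hc).2 (h0 c hc))
    rwa [sub_add_cancel] at h4
  · intro h0 c hc
    exact (h2 c hc).1 (h0 _ (h1 c hc))

theorem Iso.symm1 {D D' : Set (Finset V)} {i j : ℕ} (h : Iso F D i D' j) : H1 F D i ↔ H1 F D' j := by
  obtain ⟨φ, h1, h2, h3⟩ := h
  constructor
  · rintro ⟨z, hz, hnz, hall⟩
    refine ⟨φ z, h1 z hz, fun hb => hnz ((h2 z hz).1 hb), fun c' hc' => ?_⟩
    obtain ⟨c, hc, hb⟩ := h3 c' hc'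
    obtain ⟨a, ha⟩ := hall c hc
    refine ⟨a, ?_⟩
    have h4 := (h2 _ (hc.sub (hz.smul a))).2 ha
    rw [map_sub, map_smul] at h4
    have h5 := hb.add h4
    rwa [sub_add_sub_cancel] at h5
  · rintro ⟨z', hz', hnz, hall⟩
    obtain ⟨z, hz, hb⟩ := h3 z' hz'
    refine ⟨z, hz, fun hbz => hnz ?_, fun c hc => ?_⟩
    · have h4 := hb.add ((h2 z hz).2 hbz)
      rwa [sub_add_cancel] at h4
    · obtain ⟨a, ha⟩ := hall _ (h1 c hc)
      refine ⟨a, (h2 _ (hc.sub (hz.smul a))).1 ?_⟩
      rw [map_sub, map_smul]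
      have h4 := ha.add (hb.smul a)
      rwa [smul_sub, sub_add_sub_cancel] at h4

open Classical in
/-- the restriction of a chain to the family `D` -/
def rs (D : Set (Finset V)) : (Finset V → F) →ₗ[F] (Finset V → F) where
  toFun c T := if T ∈ D then c T else 0
  map_add' c d := by
    funext T
    by_cases h : T ∈ D <;> simp [h]
  map_smul' a c := by
    funext T
    by_cases h : T ∈ D <;> simp [h]

theorem rs_mem {D : Set (Finset V)} (c : Finset V → F) {T : Finset V} (h : T ∈ D) : rs D c T = c T := if_pos h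

theorem rs_not {D : Set (Finset V)} (c : Finset V → F) {T : Finset V} (h : T ∉ D) : rs D c T = 0 := if_neg h

/-- the boundary only depends on the values at the `insert v T` -/
theorem bd_congr {c d : Finset V → F} {T : Finset V} (h : ∀ v, v ∉ T → c (insert v T) = d (insert v T)) :
    bd F c T = bd F d T := by
  rw [bd_apply, bd_apply]
  refine Finset.sum_congr rfl fun v hv => ?_
  rw [h v (Finset.mem_compl.1 hv)]

theorem bd_zero {c : Finset V → F} {T : Finset V} (h : ∀ v, v ∉ T → c (insert v T) = 0) : bd F c T = 0 := by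
  rw [bd_apply]
  refine Finset.sum_eq_zero fun v hv => ?_
  rw [h v (Finset.mem_compl.1 hv), smul_zero]

/-- the degree of the boundary -/
theorem Sup.bd {D : Set (Finset V)} {i : ℕ} {e : Finset V → F} (he : Sup D (i + 1) e) {T : Finset V}
    (hT : T.card ≠ i) : bd F e T = 0 := by
  refine bd_zero fun v hv => he _ fun h => hT ?_
  have := h.2
  rw [Finset.card_insert_of_notMem hv] at this
  omega

theorem Sup.rs_bd {D D' : Set (Finset V)} {i : ℕ} {e : Finset V → F} (he : Sup D (i + 1) e) :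
    Sup D' i (rs D' (Pool.Agent.W907.SG.bd F e)) := by
  intro T hT
  by_cases h : T ∈ D'
  · rw [rs_mem _ h]
    exact he.bd fun h2 => hT ⟨h, h2⟩
  · exact rs_not _ h

theorem Sup.rs {D D' : Set (Finset V)} {i : ℕ} {e : Finset V → F} (he : Sup D i e) :
    Sup D' i (rs D' e) := by
  intro T hT
  by_cases h : T ∈ D'
  · rw [rs_mem _ h]
    exact he T fun h2 => hT ⟨h, h2.2⟩
  · exact rs_not _ h

/-- the boundary of the restricted boundary -/
theorem bd_rs_bd {D : Set (Finset V)} (hD : Convex D) {i : ℕ} {g : Finset V → F} (hg : Sup D i g) {T : Finset V}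
    (hT : T ∈ D) : bd F (rs D (bd F g)) T = 0 := by
  have h1 : bd F (rs D (bd F g)) T = bd F (bd F g) T := by
    refine bd_congr fun v hv => ?_
    by_cases h : insert v T ∈ D
    · rw [rs_mem _ h]
    · rw [rs_not _ h]
      symm
      refine bd_zero fun w hw => ?_
      by_contra h2
      have h3 : insert w (insert v T) ∈ D := by
        by_contra h4
        exact h2 (hg _ fun h5 => h4 h5.1)
      exact h (hD T hT _ h3 _ (Finset.subset_insert _ _) (Finset.subset_insert _ _))
  rw [h1, bd_bd]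
  rfl

section pair

variable {D D' : Set (Finset V)} (hD : Convex D) (hs : D' ⊆ D) (hd : ∀ T ∈ D', ∀ S ∈ D, S ⊆ T → S ∈ D')

include hd in
/-- on the open part the closed part is not seen -/
theorem bd_open {c : Finset V → F} {i : ℕ} (hc : Sup D' i c) {T : Finset V} (hT : T ∈ D \ D') : bd F c T = 0 :=
  bd_zero fun v _ => hc _ fun h => hT.2 (hd _ h.1 T hT.1 (Finset.subset_insert _ _))

include hd in
theorem bd_rs_open {c : Finset V → F} {i : ℕ} (hc : Sup D i c) {T : Finset V} (hT : T ∈ D \ D') :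
    bd F (rs (D \ D') c) T = bd F c T := by
  refine bd_congr fun v _ => ?_
  by_cases h : insert v T ∈ D \ D'
  · rw [rs_mem _ h]
  · rw [rs_not _ h]
    symm
    refine hc _ fun h2 => h ⟨h2.1, fun h3 => hT.2 (hd _ h3 T hT.1 (Finset.subset_insert _ _))⟩

include hs hd in
theorem cyc_up {c : Finset V → F} {i : ℕ} (hc : Cyc D' i c) : Cyc D i c := by
  refine ⟨fun T hT => hc.1 T fun h => hT ⟨hs h.1, h.2⟩, fun T hT => ?_⟩
  by_cases h : T ∈ D'
  · exact hc.2 T h
  · exact bd_open hd hc.1 ⟨hT, h⟩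

include hs in
theorem sup_up {c : Finset V → F} {i : ℕ} (hc : Sup D' i c) : Sup D i c :=
  fun T hT => hc T fun h => hT ⟨hs h.1, h.2⟩

theorem sup_diff {c : Finset V → F} {i : ℕ} (hc : Sup (D \ D') i c) : Sup D i c :=
  fun T hT => hc T fun h => hT ⟨h.1.1, h.2⟩

include hD hs hd in
/-- removing an acyclic open part -/
theorem iso_sub (hE : ∀ i, H0 F (D \ D') i) (i : ℕ) : Iso F D' i D i := by
  refine ⟨LinearMap.id, fun c hc => cyc_up hs hd hc, fun c hc => ⟨?_, ?_⟩, fun c' hc' => ?_⟩
  · rintro ⟨e, he1, he2⟩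
    rw [LinearMap.id_apply] at he2
    have h1 : Cyc (D \ D') (i + 1) (rs (D \ D') e) := by
      refine ⟨he1.rs, fun T hT => ?_⟩
      rw [bd_rs_open hd he1 hT, he2 T hT.1]
      exact hc.1 T fun h => hT.2 h.1
    obtain ⟨g, hg1, hg2⟩ := hE (i + 1) _ h1
    have hg3 : Sup D (i + 1 + 1) g := sup_diff hg1
    refine ⟨e - rs D (bd F g), fun T hT => ?_, fun T hT => ?_⟩
    · rw [Pi.sub_apply]
      by_cases h2 : T ∈ D
      · rw [rs_mem _ h2]
        by_cases h3 : T ∈ D'
        · have h4 : T.card ≠ i + 1 := fun h => hT ⟨h3, h⟩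
          rw [he1 T fun h => h4 h.2, hg3.bd h4, sub_zero]
        · rw [hg2 T ⟨h2, h3⟩, rs_mem _ (show T ∈ D \ D' from ⟨h2, h3⟩), sub_self]
      · rw [rs_not _ h2, he1 T fun h => h2 h.1, sub_zero]
    · rw [map_sub, Pi.sub_apply, bd_rs_bd hD hg3 (hs hT), sub_zero, he2 T (hs hT)]
  · rintro ⟨e, he1, he2⟩
    refine ⟨e, sup_up hs he1, fun T hT => ?_⟩
    rw [LinearMap.id_apply]
    by_cases h : T ∈ D'
    · exact he2 T h
    · rw [bd_open hd he1 ⟨hT, h⟩, hc.1 T fun h2 => h h2.1]
  · have h1 : Cyc (D \ D') i (rs (D \ D') c') :=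
      ⟨hc'.1.rs, fun T hT => by rw [bd_rs_open hd hc'.1 hT, hc'.2 T hT.1]⟩
    obtain ⟨g, hg1, hg2⟩ := hE i _ h1
    have hg3 : Sup D (i + 1) g := sup_diff hg1
    refine ⟨c' - rs D (bd F g), ⟨fun T hT => ?_, fun T hT => ?_⟩, g, hg3, fun T hT => ?_⟩
    · rw [Pi.sub_apply]
      by_cases h2 : T ∈ D
      · rw [rs_mem _ h2]
        by_cases h3 : T ∈ D'
        · have h4 : T.card ≠ i := fun h => hT ⟨h3, h⟩
          rw [hc'.1 T fun h => h4 h.2, hg3.bd h4, sub_zero]
        · rw [hg2 T ⟨h2, h3⟩, rs_mem _ (show T ∈ D \ D' from ⟨h2, h3⟩), sub_self]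
      · rw [rs_not _ h2, hc'.1 T fun h => h2 h.1, sub_zero]
    · rw [map_sub, Pi.sub_apply, bd_rs_bd hD hg3 (hs hT), sub_zero, hc'.2 T (hs hT)]
    · rw [LinearMap.id_apply, Pi.sub_apply, Pi.sub_apply, rs_mem _ hT, sub_sub_cancel]

include hD hs hd in
/-- the connecting map -/
theorem iso_conn (hA : ∀ i, H0 F D i) (i : ℕ) : Iso F (D \ D') (i + 1) D' i := by
  refine ⟨(rs D').comp (bd F), fun c hc => ⟨?_, fun T hT => ?_⟩, fun c hc => ⟨?_, ?_⟩, fun c' hc' => ?_⟩
  · exact hc.1.rs_bd
  · have h1 : bd F (rs D' (bd F c)) T = bd F (rs D (bd F c)) T := by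
      refine bd_congr fun v _ => ?_
      by_cases h2 : insert v T ∈ D'
      · rw [rs_mem _ h2, rs_mem _ (hs h2)]
      · rw [rs_not _ h2]
        by_cases h3 : insert v T ∈ D
        · rw [rs_mem _ h3, hc.2 _ ⟨h3, h2⟩]
        · rw [rs_not _ h3]
    change bd F (rs D' (bd F c)) T = 0
    rw [h1]
    exact bd_rs_bd hD (sup_diff hc.1) (hs hT)
  · rintro ⟨e, he1, he2⟩
    have h1 : Cyc D (i + 1) (c - e) := by
      refine ⟨(sup_diff hc.1).sub (sup_up hs he1), fun T hT => ?_⟩
      rw [map_sub, Pi.sub_apply]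
      by_cases h : T ∈ D'
      · rw [he2 T h]
        change bd F c T - rs D' (bd F c) T = 0
        rw [rs_mem _ h, sub_self]
      · rw [bd_open hd he1 ⟨hT, h⟩, hc.2 T ⟨hT, h⟩, sub_zero]
    obtain ⟨g, hg1, hg2⟩ := hA (i + 1) _ h1
    refine ⟨rs (D \ D') g, hg1.rs, fun T hT => ?_⟩
    rw [bd_rs_open hd hg1 hT, hg2 T hT.1, Pi.sub_apply, he1 T fun h => hT.2 h.1, sub_zero]
  · rintro ⟨g, hg1, hg2⟩
    have hg3 : Sup D (i + 1 + 1) g := sup_diff hg1
    refine ⟨- rs D' (bd F g), (hg3.rs_bd).neg, fun T hT => ?_⟩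
    have h1 : rs D (bd F g) = c + rs D' (bd F g) := by
      funext S
      rw [Pi.add_apply]
      by_cases h2 : S ∈ D'
      · rw [rs_mem _ h2, rs_mem _ (hs h2), hc.1 S fun h => h.1.2 h2, zero_add]
      · rw [rs_not _ h2, add_zero]
        by_cases h3 : S ∈ D
        · rw [rs_mem _ h3, hg2 S ⟨h3, h2⟩]
        · rw [rs_not _ h3, hc.1 S fun h => h3 h.1.1]
    have h2 := bd_rs_bd hD hg3 (hs hT)
    rw [h1, map_add, Pi.add_apply] at h2
    change bd F (- rs D' (bd F g)) T = rs D' (bd F c) T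
    rw [map_neg, Pi.neg_apply, rs_mem _ hT]
    exact (eq_neg_of_add_eq_zero_left h2).symm
  · have h1 := cyc_up hs hd hc'
    obtain ⟨g, hg1, hg2⟩ := hA i _ h1
    have hc1 : Cyc (D \ D') (i + 1) (rs (D \ D') g) :=
      ⟨hg1.rs, fun T hT => by rw [bd_rs_open hd hg1 hT, hg2 T hT.1, hc'.1 T fun h => hT.2 h.1]⟩
    refine ⟨rs (D \ D') g, hc1, rs D' g, hg1.rs, fun T hT => ?_⟩
    change bd F (rs D' g) T = (c' - rs D' (bd F (rs (D \ D') g))) T
    rw [Pi.sub_apply, rs_mem _ hT, ← hg2 T (hs hT), ← Pi.sub_apply, ← map_sub]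
    refine bd_congr fun v _ => ?_
    rw [Pi.sub_apply]
    by_cases h2 : insert v T ∈ D'
    · rw [rs_mem _ h2, rs_not _ (show insert v T ∉ D \ D' from fun h => h.2 h2), sub_zero]
    · rw [rs_not _ h2]
      by_cases h3 : insert v T ∈ D
      · rw [rs_mem _ (show insert v T ∈ D \ D' from ⟨h3, h2⟩), sub_self]
      · rw [rs_not _ (show insert v T ∉ D \ D' from fun h => h3 h.1), hg1 _ fun h => h3 h.1, sub_zero]

end pair

/-- a family which is invariant under adding and removing `a` is acyclic -/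
theorem toggle {E : Set (Finset V)} (a : V) (h : ∀ T, a ∉ T → (T ∈ E ↔ insert a T ∈ E)) (i : ℕ) : H0 F E i := by
  intro c hc
  refine ⟨fun T => if a ∈ T then sg a (T.erase a) • c (T.erase a) else 0, fun T hT => ?_, fun T hT => ?_⟩
  · beta_reduce
    by_cases ha : a ∈ T
    · rw [if_pos ha]
      rw [hc.1 (T.erase a), smul_zero]
      rintro ⟨h1, h2⟩
      refine hT ⟨?_, ?_⟩
      · have := (h (T.erase a) (Finset.notMem_erase a T)).1 h1
        rwa [Finset.insert_erase ha] at this
      · rw [Finset.card_erase_of_mem ha] at h2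
        have := Finset.card_pos.2 ⟨a, ha⟩
        omega
    · exact if_neg ha
  · by_cases ha : a ∈ T
    · -- `T = insert a S`
      obtain ⟨S, hS, rfl⟩ : ∃ S, a ∉ S ∧ T = insert a S := ⟨T.erase a, Finset.notMem_erase a T, (Finset.insert_erase ha).symm⟩
      have hSE : S ∈ E := (h S hS).2 hT
      have h1 := hc.2 S hSE
      have haS : a ∈ Sᶜ := Finset.mem_compl.2 hS
      rw [bd_apply, ← Finset.add_sum_erase _ _ haS] at h1
      have h2 : (insert a S)ᶜ = Sᶜ.erase a := by
        ext u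
        simp
      rw [bd_apply, h2]
      have h3 : ∀ v ∈ Sᶜ.erase a, sg v (insert a S) • (if a ∈ insert v (insert a S) then
          sg a ((insert v (insert a S)).erase a) • c ((insert v (insert a S)).erase a) else 0)
          = - (sg a S • (sg v S • c (insert v S))) := by
        intro v hv
        rw [Finset.mem_erase, Finset.mem_compl] at hv
        rw [if_pos (Finset.mem_insert_of_mem (Finset.mem_insert_self _ _))]
        have h4 : (insert v (insert a S)).erase a = insert v S := by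
          rw [Finset.insert_comm, Finset.erase_insert]
          rw [Finset.mem_insert]
          rintro (h5 | h5)
          · exact hv.1 h5.symm
          · exact hS h5
        rw [h4, smul_smul, smul_smul, ← neg_smul]
        congr 1
        have h5 := sg_swap v a S hv.1 hv.2 hS
        have h6 := sg_mul_self a S
        have h7 := sg_mul_self v S
        have h8 := sg_mul_self a (insert v S)
        -- sg v (insert a S) * sg a S = - (sg a (insert v S) * sg v S)
        calc sg v (insert a S) * sg a (insert v S)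
            = (sg v (insert a S) * sg a S) * (sg a S * sg a (insert v S)) := by
              rw [show (sg v (insert a S) * sg a S) * (sg a S * sg a (insert v S))
                = sg v (insert a S) * (sg a S * sg a S) * sg a (insert v S) by ring, h6, mul_one]
          _ = - (sg a (insert v S) * sg v S) * (sg a S * sg a (insert v S)) := by rw [h5]
          _ = - (sg a (insert v S) * sg a (insert v S)) * (sg a S * sg v S) := by ring
          _ = - (sg a S * sg v S) := by rw [h8]; ring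
      rw [Finset.sum_congr rfl h3, Finset.sum_neg_distrib, ← Finset.smul_sum]
      have h9 : ∑ v ∈ Sᶜ.erase a, sg v S • c (insert v S) = - (sg a S • c (insert a S)) :=
        eq_neg_of_add_eq_zero_right h1
      rw [h9, smul_neg, neg_neg, smul_smul, sg_mul_self, one_smul]
    · rw [bd_apply, Finset.sum_eq_single a]
      · rw [if_pos (Finset.mem_insert_self _ _), Finset.erase_insert ha, smul_smul, sg_mul_self, one_smul]
      · intro v hv hva
        rw [if_neg, smul_zero]
        rw [Finset.mem_insert]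
        rintro (h5 | h5)
        · exact hva h5.symm
        · exact ha h5
      · intro h1
        exact absurd (Finset.mem_compl.2 ha) h1

end Pool.Agent.V8H27.GC
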