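import Pool.Agent.V8H27.GC.Defs

/-!
# Shift by a vertex
-/

set_option autoImplicit false

namespace Pool.Agent.V8H27.GC

open Pool.Agent.W907.SG

variable {F : Type} [Field F] {V : Type} [Fintype V] [LinearOrder V]

/-- remove the vertex `m` -/
def shD (F : Type) [Field F] {V : Type} [Fintype V] [LinearOrder V] (m : V) : (Finset V → F) →ₗ[F] (Finset V → F) where
  toFun c T := if m ∈ T then 0 else sg m T • c (insert m T)
  map_add' c d := by
    funext T
    simp only [Pi.add_apply]
    split_ifs
    · simp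
    · rw [smul_add]
  map_smul' a c := by
    funext T
    simp only [Pi.smul_apply, RingHom.id_apply]
    split_ifs
    · simp
    · exact smul_comm _ _ _

theorem shD_mem (m : V) (c : Finset V → F) {T : Finset V} (h : m ∈ T) : shD F m c T = 0 := if_pos h

theorem shD_not (m : V) (c : Finset V → F) {T : Finset V} (h : m ∉ T) : shD F m c T = sg m T • c (insert m T) := if_neg h

/-- add the vertex `m` -/
def shU (F : Type) [Field F] {V : Type} [Fintype V] [LinearOrder V] (m : V) (e : Finset V → F) (S : Finset V) : F :=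
  if m ∈ S then sg m (S.erase m) • e (S.erase m) else 0

omit [Fintype V] in
theorem sg_sg (m : V) (T : Finset V) (x : F) : sg m T • sg m T • x = x := by
  rw [smul_smul, sg_mul_self, one_smul]

theorem bd_shD (m : V) (c : Finset V → F) {T : Finset V} (h : m ∉ T) :
    bd F (shD F m c) T = - (sg m T • bd F c (insert m T)) := by
  rw [bd_apply, bd_apply]
  have h1 : Tᶜ = insert m (insert m T)ᶜ := by
    ext x
    simp only [Finset.mem_compl, Finset.mem_insert, not_or]
    by_cases hx : x = m
    · subst hx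
      simp [h]
    · simp [hx]
  rw [h1, Finset.sum_insert (by simp), shD_mem m c (Finset.mem_insert_self m T), smul_zero, zero_add,
    Finset.smul_sum, ← Finset.sum_neg_distrib]
  refine Finset.sum_congr rfl fun v hv => ?_
  rw [Finset.mem_compl, Finset.mem_insert, not_or] at hv
  have h2 : m ∉ insert v T := by
    rw [Finset.mem_insert, not_or]
    exact ⟨Ne.symm hv.1, h⟩
  rw [shD_not m c h2, smul_smul, smul_smul, Finset.insert_comm m v T, ← neg_smul]
  congr 1
  have h3 := sg_swap m v T (Ne.symm hv.1) h hv.2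
  rw [mul_comm] at h3
  rw [h3, mul_comm]

theorem shD_shU (m : V) {e : Finset V → F} (he : ∀ T, m ∈ T → e T = 0) : shD F m (shU F m e) = e := by
  funext T
  by_cases h : m ∈ T
  · rw [shD_mem m _ h, he T h]
  · rw [shD_not m _ h]
    unfold shU
    rw [if_pos (Finset.mem_insert_self m T), Finset.erase_insert h, sg_sg]

theorem bd_shU (m : V) {e : Finset V → F} (he : ∀ T, m ∈ T → e T = 0) {T : Finset V} (h : m ∉ T) :
    bd F (shU F m e) (insert m T) = - (sg m T • bd F e T) := by
  have h1 := bd_shD m (shU F m e) h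
  rw [shD_shU m he] at h1
  rw [h1, smul_neg, sg_sg, neg_neg]

/-- shift by a vertex -/
theorem iso_shift {D : Set (Finset V)} (m : V) (hm : ∀ T ∈ D, m ∉ T) (i : ℕ) :
    Iso F {T | m ∈ T ∧ T.erase m ∈ D} (i + 1) D i := by
  have hE : ∀ T ∈ D, insert m T ∈ {T : Finset V | m ∈ T ∧ T.erase m ∈ D} := fun T hT =>
    ⟨Finset.mem_insert_self _ _, by rw [Finset.erase_insert (hm T hT)]; exact hT⟩
  have sup1 : ∀ (c : Finset V → F) (j : ℕ), Sup {T : Finset V | m ∈ T ∧ T.erase m ∈ D} (j + 1) c → Sup D j (shD F m c) := by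
    intro c j hc T hT
    by_cases h : m ∈ T
    · exact shD_mem m c h
    · rw [shD_not m c h, hc (insert m T), smul_zero]
      rintro ⟨⟨_, h1⟩, h2⟩
      rw [Finset.erase_insert h] at h1
      rw [Finset.card_insert_of_notMem h] at h2
      exact hT ⟨h1, by omega⟩
  have sup2 : ∀ (e : Finset V → F) (j : ℕ), Sup D j e → Sup {T : Finset V | m ∈ T ∧ T.erase m ∈ D} (j + 1) (shU F m e) := by
    intro e j he T hT
    unfold shU
    split_ifs with h
    · rw [he (T.erase m), smul_zero]
      rintro ⟨h1, h2⟩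
      rw [Finset.card_erase_of_mem h] at h2
      have h3 : 0 < T.card := Finset.card_pos.2 ⟨m, h⟩
      exact hT ⟨⟨h, h1⟩, by omega⟩
    · rfl
  have hz : ∀ (e : Finset V → F) (j : ℕ), Sup D j e → ∀ T, m ∈ T → e T = 0 := by
    intro e j he T hT
    exact he T fun h => hm T h.1 hT
  refine ⟨shD F m, ?_, ?_, ?_⟩
  · rintro c ⟨h1, h2⟩
    refine ⟨sup1 c i h1, fun T hT => ?_⟩
    rw [bd_shD m c (hm T hT), h2 _ (hE T hT), smul_zero, neg_zero]
  · rintro c ⟨h1, h2⟩
    constructor
    · rintro ⟨e, he, he'⟩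
      refine ⟨-shU F m e, ?_, ?_⟩
      · intro T hT
        rw [Pi.neg_apply, sup2 e _ he T hT, neg_zero]
      · rintro S ⟨hS1, hS2⟩
        have h3 : insert m (S.erase m) = S := Finset.insert_erase hS1
        have h4 := bd_shU m (hz e _ he) (Finset.notMem_erase m S)
        rw [h3, he' _ hS2, shD_not m c (Finset.notMem_erase m S), sg_sg, h3] at h4
        rw [map_neg, Pi.neg_apply, h4, neg_neg]
    · rintro ⟨e, he, he'⟩
      refine ⟨-shD F m e, ?_, ?_⟩
      · intro T hT
        rw [Pi.neg_apply, sup1 e _ he T hT, neg_zero]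
      · intro T hT
        rw [map_neg, Pi.neg_apply, bd_shD m e (hm T hT), neg_neg, he' _ (hE T hT), shD_not m c (hm T hT)]
  · rintro c' ⟨h1, h2⟩
    refine ⟨shU F m c', ⟨sup2 c' i h1, ?_⟩, ?_⟩
    · rintro S ⟨hS1, hS2⟩
      have h3 : insert m (S.erase m) = S := Finset.insert_erase hS1
      have h4 := bd_shU m (hz c' _ h1) (Finset.notMem_erase m S)
      rw [h3, h2 _ hS2, smul_zero, neg_zero] at h4
      exact h4
    · rw [shD_shU m (hz c' _ h1), sub_self]
      refine ⟨0, fun _ _ => rfl, fun T _ => ?_⟩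
      rw [map_zero]

end Pool.Agent.V8H27.GC
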