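import Pool.Agent.V8H27.GC.L
import Pool.Agent.V8H27.GC.Sh

/-!
# Stellar subdivisions and homology

`star_iff`: being a homology sphere with all links is invariant under stellar subdivisions. `PLC.gs`: PL spheres are
homology spheres, with all links, over every field.
-/

set_option autoImplicit false
set_option linter.unusedSectionVars false

namespace Pool.Agent.V8H27.GC

open Pool.Agent.W907.SG

variable {F : Type} [Field F] {V : Type} [Fintype V] [LinearOrder V]

/-! ### equivalence of the homologies -/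

/-- the families `D` in degree `i` and `D'` in degree `j` have simultaneously homology of dimension 0, or 1 -/
def Eqv (F : Type) [Field F] {V : Type} [Fintype V] [LinearOrder V] (D : Set (Finset V)) (i : ℕ)
    (D' : Set (Finset V)) (j : ℕ) : Prop := (H0 F D i ↔ H0 F D' j) ∧ (H1 F D i ↔ H1 F D' j)

theorem Iso.eqv {D D' : Set (Finset V)} {i j : ℕ} (h : Iso F D i D' j) : Eqv F D i D' j := ⟨h.symm0, h.symm1⟩

theorem Eqv.symm {D D' : Set (Finset V)} {i j : ℕ} (h : Eqv F D i D' j) : Eqv F D' j D i := ⟨h.1.symm, h.2.symm⟩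

theorem Eqv.trans {D D' D'' : Set (Finset V)} {i j k : ℕ} (h : Eqv F D i D' j) (h' : Eqv F D' j D'' k) :
    Eqv F D i D'' k := ⟨h.1.trans h'.1, h.2.trans h'.2⟩

/-! ### one face -/

theorem single_H1 (W : Finset V) : H1 F ({W} : Set (Finset V)) W.card := by
  classical
  refine ⟨fun T => if T = W then 1 else 0, ⟨?_, ?_⟩, ?_, ?_⟩
  · intro T hT
    show (if T = W then (1 : F) else 0) = 0
    rw [if_neg]
    rintro rfl
    exact hT ⟨rfl, rfl⟩
  · intro T hT
    rw [Set.mem_singleton_iff] at hT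
    subst hT
    rw [bd_apply]
    refine Finset.sum_eq_zero fun v hv => ?_
    rw [if_neg, smul_zero]
    intro h
    rw [Finset.mem_compl] at hv
    exact hv (h ▸ Finset.mem_insert_self v T)
  · rintro ⟨e, he, he'⟩
    have h1 := he' W rfl
    rw [bd_apply] at h1
    have h2 : ∑ v ∈ Wᶜ, sg v W • e (insert v W) = 0 := by
      refine Finset.sum_eq_zero fun v hv => ?_
      rw [he, smul_zero]
      rintro ⟨h3, _⟩
      rw [Set.mem_singleton_iff] at h3
      rw [Finset.mem_compl] at hv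
      exact hv (h3 ▸ Finset.mem_insert_self v W)
    rw [h2] at h1
    simp at h1
  · intro c hc
    refine ⟨c W, fun _ => 0, fun _ _ => rfl, fun T hT => ?_⟩
    rw [Set.mem_singleton_iff] at hT
    subst hT
    have h3 : bd F (fun _ : Finset V => (0 : F)) T = 0 := by
      rw [bd_apply]
      exact Finset.sum_eq_zero fun v _ => smul_zero _
    rw [h3]
    simp

theorem single_H0 (W : Finset V) {i : ℕ} (hi : i ≠ W.card) : H0 F ({W} : Set (Finset V)) i := by
  intro c hc
  refine ⟨fun _ => 0, fun _ _ => rfl, fun T hT => ?_⟩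
  rw [Set.mem_singleton_iff] at hT
  subst hT
  have h3 : bd F (fun _ : Finset V => (0 : F)) T = 0 := by
    rw [bd_apply]
    exact Finset.sum_eq_zero fun v _ => smul_zero _
  rw [h3, hc.1 T]
  rintro ⟨_, h⟩
  exact hi h.symm

/-- the boundary of a simplex, from a face on -/
theorem bdry (W σ : Finset V) (h : σ ⊂ W) (i : ℕ) :
    Eqv F {T : Finset V | σ ⊆ T ∧ T ⊂ W} i {W} (i + 1) := by
  obtain ⟨hs, hn⟩ := (Finset.ssubset_iff_subset_ne.mp h)
  obtain ⟨v, hv, hvσ⟩ := Finset.exists_of_ssubset h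
  have hcv : Convex {T : Finset V | σ ⊆ T ∧ T ⊆ W} := fun S hS T hT R h1 h2 => ⟨hS.1.trans h1, h2.trans hT.2⟩
  have hsub : {T : Finset V | σ ⊆ T ∧ T ⊂ W} ⊆ {T : Finset V | σ ⊆ T ∧ T ⊆ W} := fun T hT => ⟨hT.1, hT.2.subset⟩
  have key := iso_conn (F := F) hcv hsub (fun T hT S hS h1 => ⟨hS.1, Finset.ssubset_of_subset_of_ssubset h1 hT.2⟩) ?_ i
  · have he : {T : Finset V | σ ⊆ T ∧ T ⊆ W} \ {T : Finset V | σ ⊆ T ∧ T ⊂ W} = {W} := by
      ext T
      simp only [Set.mem_sdiff, Set.mem_ofPred_eq, Set.mem_singleton_iff, not_and, Finset.ssubset_iff_subset_ne,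
        not_not]
      constructor
      · rintro ⟨⟨h1, h2⟩, h3⟩
        exact h3 h1 h2
      · rintro rfl
        exact ⟨⟨hs, Finset.Subset.refl _⟩, fun _ _ => rfl⟩
    rw [he] at key
    exact key.eqv.symm
  · intro j
    refine toggle v (fun T hT => ?_) j
    constructor
    · rintro ⟨h1, h2⟩
      exact ⟨h1.trans (Finset.subset_insert _ _), Finset.insert_subset hv h2⟩
    · rintro ⟨h1, h2⟩
      refine ⟨fun x hx => ?_, (Finset.subset_insert _ _).trans h2⟩
      rcases Finset.mem_insert.1 (h1 hx) with h3 | h3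
      · exact absurd (h3 ▸ hx) hvσ
      · exact h3

theorem start (W : Finset V) {n : ℕ} (hW : W.card = n + 1) : GS F n {T : Finset V | T ⊂ W} := by
  have hup : ∀ σ, up {T : Finset V | T ⊂ W} σ = {T : Finset V | σ ⊆ T ∧ T ⊂ W} := by
    intro σ
    ext T
    exact and_comm
  refine ⟨fun T hT S hS => Finset.ssubset_of_subset_of_ssubset hS hT, fun σ hσ => ?_, fun σ hσ i hi => ?_⟩
  · rw [hup, (bdry W σ hσ n).2, ← hW]
    exact single_H1 W
  · rw [hup, (bdry W σ hσ i).1]
    refine single_H0 W ?_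
    omega

/-! ### stellar subdivisions -/

section star

variable {K : Set (Finset V)} {A : Finset V} {m : V}

theorem star_dn (hK : ∀ T ∈ K, ∀ S, S ⊆ T → S ∈ K) (A : Finset V) (m : V) (hm : ∀ T ∈ K, m ∉ T) :
    ∀ T ∈ star A m K, ∀ S, S ⊆ T → S ∈ star A m K := by
  rintro T ⟨h1, h2⟩ S hS
  refine ⟨?_, fun h => h2 (h.trans hS)⟩
  rcases h1 with h1 | ⟨h1, h3⟩
  · exact Or.inl (hK T h1 S hS)
  · by_cases hmS : m ∈ S
    · exact Or.inr ⟨hmS, hK _ h3 _ (Finset.union_subset_union_left (Finset.erase_subset_erase _ hS))⟩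
    · refine Or.inl (hK _ h3 _ ?_)
      intro x hx
      refine Finset.mem_union_left _ (Finset.mem_erase.2 ⟨?_, hS hx⟩)
      rintro rfl
      exact hmS hx

/-- the complex together with the cone over the star of `A` -/
def big (A : Finset V) (m : V) (K : Set (Finset V)) : Set (Finset V) := {T | T ∈ K ∨ (m ∈ T ∧ T.erase m ∪ A ∈ K)}

theorem big_dn (hK : ∀ T ∈ K, ∀ S, S ⊆ T → S ∈ K) (A : Finset V) (m : V) :
    ∀ T ∈ big A m K, ∀ S, S ⊆ T → S ∈ big A m K := by
  rintro T h1 S hS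
  rcases h1 with h1 | ⟨h1, h3⟩
  · exact Or.inl (hK T h1 S hS)
  · by_cases hmS : m ∈ S
    · exact Or.inr ⟨hmS, hK _ h3 _ (Finset.union_subset_union_left (Finset.erase_subset_erase _ hS))⟩
    · refine Or.inl (hK _ h3 _ ?_)
      intro x hx
      refine Finset.mem_union_left _ (Finset.mem_erase.2 ⟨?_, hS hx⟩)
      rintro rfl
      exact hmS hx

theorem up_convex {K : Set (Finset V)} (hK : ∀ T ∈ K, ∀ S, S ⊆ T → S ∈ K) (σ : Finset V) : Convex (up K σ) :=
  fun _ hS T hT R h1 h2 => ⟨hK T hT.1 R h2, hS.2.trans h1⟩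

/-- the faces which do not contain `A` and `m` -/
theorem up_old (hK : ∀ T ∈ K, ∀ S, S ⊆ T → S ∈ K) (hAK : A ∈ K) (hm : ∀ T ∈ K, m ∉ T) {σ : Finset V} (hσ : σ ∈ K)
    (hA : ¬ A ⊆ σ) (i : ℕ) : Eqv F (up K σ) i (up (star A m K) σ) i := by
  obtain ⟨a, haA, haσ⟩ := Finset.not_subset.1 hA
  have hmA : m ∉ A := hm A hAK
  have hmσ : m ∉ σ := hm σ hσ
  have ham : a ≠ m := by
    rintro rfl
    exact hmA haA
  have hB : ∀ i, H0 F (up (big A m K) σ \ up K σ) i := by
    intro i
    refine toggle a (fun T haT => ?_) i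
    have hg : (insert a T).erase m ∪ A = T.erase m ∪ A := by
      ext x
      simp only [Finset.mem_union, Finset.mem_erase, Finset.mem_insert]
      constructor
      · rintro (⟨h1, h2 | h2⟩ | h1)
        · right
          rw [h2]
          exact haA
        · exact Or.inl ⟨h1, h2⟩
        · exact Or.inr h1
      · rintro (⟨h1, h2⟩ | h1)
        · exact Or.inl ⟨h1, Or.inr h2⟩
        · exact Or.inr h1
    constructor
    · rintro ⟨⟨h1 | ⟨h1, h2⟩, h3⟩, h4⟩
      · exact absurd ⟨h1, h3⟩ h4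
      · refine ⟨⟨Or.inr ⟨Finset.mem_insert_of_mem h1, by rw [hg]; exact h2⟩, h3.trans (Finset.subset_insert _ _)⟩, ?_⟩
        rintro ⟨h5, _⟩
        exact hm _ h5 (Finset.mem_insert_of_mem h1)
    · rintro ⟨⟨h1 | ⟨h1, h2⟩, h3⟩, h4⟩
      · exact absurd ⟨h1, h3⟩ h4
      · have hmT : m ∈ T := (Finset.mem_insert.1 h1).resolve_left ham.symm
        refine ⟨⟨Or.inr ⟨hmT, by rw [← hg]; exact h2⟩, fun x hx => ?_⟩, ?_⟩
        · rcases Finset.mem_insert.1 (h3 hx) with h5 | h5
          · exact absurd (h5 ▸ hx) haσ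
          · exact h5
        · rintro ⟨h5, _⟩
          exact hm _ h5 hmT
  have hC : ∀ i, H0 F (up (big A m K) σ \ up (star A m K) σ) i := by
    intro i
    refine toggle m (fun T hmT => ?_) i
    have he : (insert m T).erase m = T := Finset.erase_insert hmT
    constructor
    · rintro ⟨⟨h1 | ⟨h1, _⟩, h3⟩, h4⟩
      · have hAT : A ⊆ T := by
          by_contra h5
          exact h4 ⟨⟨Or.inl h1, h5⟩, h3⟩
        refine ⟨⟨Or.inr ⟨Finset.mem_insert_self _ _, ?_⟩, h3.trans (Finset.subset_insert _ _)⟩, ?_⟩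
        · rw [he, Finset.union_eq_left.2 hAT]
          exact h1
        · rintro ⟨⟨_, h5⟩, _⟩
          exact h5 (hAT.trans (Finset.subset_insert _ _))
      · exact absurd h1 hmT
    · rintro ⟨⟨h1, h3⟩, h4⟩
      have h6 : T ∪ A ∈ K := by
        rcases h1 with h1 | ⟨h1, h2⟩
        · exact absurd (Finset.mem_insert_self _ _) (hm _ h1)
        · rw [he] at h2
          exact h2
      have hAT : A ⊆ insert m T := by
        by_contra h5
        exact h4 ⟨⟨h1, h5⟩, h3⟩
      have hAT' : A ⊆ T := by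
        intro x hx
        rcases Finset.mem_insert.1 (hAT hx) with h7 | h7
        · exact absurd (h7 ▸ hx) hmA
        · exact h7
      refine ⟨⟨Or.inl (hK _ h6 _ Finset.subset_union_left), fun x hx => ?_⟩, ?_⟩
      · rcases Finset.mem_insert.1 (h3 hx) with h7 | h7
        · exact absurd (h7 ▸ hx) hmσ
        · exact h7
      · rintro ⟨⟨_, h5⟩, _⟩
        exact h5 hAT'
  have h1 := iso_sub (F := F) (D := up (big A m K) σ) (D' := up K σ) (up_convex (big_dn hK A m) σ)
    (fun T hT => ⟨Or.inl hT.1, hT.2⟩) (fun T hT S hS hST => ⟨hK _ hT.1 _ hST, hS.2⟩) hB i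
  have h2 := iso_sub (F := F) (D := up (big A m K) σ) (D' := up (star A m K) σ) (up_convex (big_dn hK A m) σ)
    (fun T hT => ⟨hT.1.1, hT.2⟩) (fun T hT S hS hST => ⟨star_dn hK A m hm _ hT.1 _ hST, hS.2⟩) hC i
  exact h1.eqv.trans h2.eqv.symm

/-- the faces which contain `m` -/
theorem up_new (hK : ∀ T ∈ K, ∀ S, S ⊆ T → S ∈ K) (hm : ∀ T ∈ K, m ∉ T) {σ : Finset V}
    (hσ : σ ∪ A ∈ K) (hA : ¬ A ⊆ σ) (i : ℕ) : Eqv F (up K (σ ∪ A)) i (up (star A m K) (insert m σ)) i := by
  obtain ⟨a, haA, haσ⟩ := Finset.not_subset.1 hA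
  have hmA : m ∉ A := fun h => hm _ hσ (Finset.mem_union_right _ h)
  have hmσ : m ∉ σ := fun h => hm _ hσ (Finset.mem_union_left _ h)
  have ham : a ≠ m := by
    rintro rfl
    exact hmA haA
  set N : Set (Finset V) := {T | insert m σ ⊆ T ∧ T.erase m ∪ A ∈ K} with hN
  have hNc : Convex N := by
    rintro S ⟨h1, h2⟩ T ⟨h3, h4⟩ R h5 h6
    exact ⟨h1.trans h5, hK _ h4 _ (Finset.union_subset_union_left (Finset.erase_subset_erase _ h6))⟩
  have hNa : ∀ i, H0 F N i := by
    intro i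
    refine toggle a (fun T haT => ?_) i
    have hg : (insert a T).erase m ∪ A = T.erase m ∪ A := by
      ext x
      simp only [Finset.mem_union, Finset.mem_erase, Finset.mem_insert]
      constructor
      · rintro (⟨h1, h2 | h2⟩ | h1)
        · right
          rw [h2]
          exact haA
        · exact Or.inl ⟨h1, h2⟩
        · exact Or.inr h1
      · rintro (⟨h1, h2⟩ | h1)
        · exact Or.inl ⟨h1, Or.inr h2⟩
        · exact Or.inr h1
    constructor
    · rintro ⟨h1, h2⟩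
      exact ⟨h1.trans (Finset.subset_insert _ _), by rw [hg]; exact h2⟩
    · rintro ⟨h1, h2⟩
      refine ⟨fun x hx => ?_, by rw [← hg]; exact h2⟩
      rcases Finset.mem_insert.1 (h1 hx) with h5 | h5
      · exfalso
        subst h5
        rcases Finset.mem_insert.1 hx with h6 | h6
        · exact ham h6
        · exact haσ h6
      · exact h5
  have hs : up (star A m K) (insert m σ) ⊆ N := by
    rintro T ⟨⟨h1, h2⟩, h3⟩
    have hmT : m ∈ T := h3 (Finset.mem_insert_self _ _)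
    refine ⟨h3, ?_⟩
    rcases h1 with h1 | h1
    · exact absurd hmT (hm _ h1)
    · exact h1.2
  have hE : N \ up (star A m K) (insert m σ) = {T | m ∈ T ∧ T.erase m ∈ up K (σ ∪ A)} := by
    ext T
    constructor
    · rintro ⟨⟨h1, h2⟩, h3⟩
      have hmT : m ∈ T := h1 (Finset.mem_insert_self _ _)
      have hAT : A ⊆ T := by
        by_contra h5
        exact h3 ⟨⟨Or.inr ⟨hmT, h2⟩, h5⟩, h1⟩
      have hAT' : A ⊆ T.erase m := fun x hx => Finset.mem_erase.2 ⟨fun h => hmA (h ▸ hx), hAT hx⟩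
      refine ⟨hmT, ?_, Finset.union_subset (fun x hx => Finset.mem_erase.2 ⟨fun h => hmσ (h ▸ hx),
        h1 (Finset.mem_insert_of_mem hx)⟩) hAT'⟩
      rw [Finset.union_eq_left.2 hAT'] at h2
      exact h2
    · rintro ⟨h1, h2, h3⟩
      have hAT' : A ⊆ T.erase m := Finset.subset_union_right.trans h3
      refine ⟨⟨?_, ?_⟩, ?_⟩
      · refine Finset.insert_subset h1 ?_
        exact (Finset.subset_union_left.trans h3).trans (Finset.erase_subset _ _)
      · rw [Finset.union_eq_left.2 hAT']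
        exact h2
      · rintro ⟨⟨_, h5⟩, _⟩
        exact h5 (hAT'.trans (Finset.erase_subset _ _))
  have h1 := iso_conn (F := F) hNc hs (fun T hT S hS hST => ⟨star_dn hK A m hm _ hT.1 _ hST, hS.1⟩) hNa i
  rw [hE] at h1
  have h2 := iso_shift (F := F) (D := up K (σ ∪ A)) m (fun T hT => hm T hT.1) i
  exact h2.eqv.symm.trans h1.eqv

/-- **Invariance under stellar subdivisions** -/
theorem star_iff {n : ℕ} (hK : ∀ T ∈ K, ∀ S, S ⊆ T → S ∈ K)
    (hA : A.Nonempty) (hAK : A ∈ K) (hm : ∀ T ∈ K, m ∉ T) : GS F n K ↔ GS F n (star A m K) := by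
  have hmA : m ∉ A := hm A hAK
  -- every face of the subdivision comes from a face of the complex
  have fwd : ∀ σ ∈ star A m K, ∃ τ ∈ K, ∀ i, Eqv F (up K τ) i (up (star A m K) σ) i := by
    rintro σ ⟨h1 | ⟨h1, h2⟩, h3⟩
    · exact ⟨σ, h1, fun i => up_old hK hAK hm h1 h3 i⟩
    · refine ⟨σ.erase m ∪ A, h2, fun i => ?_⟩
      have h4 : ¬ A ⊆ σ.erase m := fun h => h3 (h.trans (Finset.erase_subset _ _))
      have h5 := up_new (F := F) hK hm h2 h4 i
      rw [Finset.insert_erase h1] at h5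
      exact h5
  have bwd : ∀ τ ∈ K, ∃ σ ∈ star A m K, ∀ i, Eqv F (up K τ) i (up (star A m K) σ) i := by
    intro τ hτ
    by_cases hAτ : A ⊆ τ
    · have h4 : ¬ A ⊆ τ \ A := by
        obtain ⟨a, ha⟩ := hA
        intro h
        exact (Finset.mem_sdiff.1 (h ha)).2 ha
      have h5 : τ \ A ∪ A = τ := Finset.sdiff_union_of_subset hAτ
      have hmτ : m ∉ τ \ A := fun h => hm τ hτ (Finset.mem_sdiff.1 h).1
      refine ⟨insert m (τ \ A), ⟨Or.inr ⟨Finset.mem_insert_self _ _, ?_⟩, ?_⟩, fun i => ?_⟩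
      · rw [Finset.erase_insert hmτ, h5]
        exact hτ
      · intro h
        apply h4
        intro x hx
        rcases Finset.mem_insert.1 (h hx) with h6 | h6
        · exact absurd (h6 ▸ hx) hmA
        · exact h6
      · have h6 := up_new (F := F) (σ := τ \ A) (A := A) hK hm (by rw [h5]; exact hτ) h4 i
        rw [h5] at h6
        exact h6
    · exact ⟨τ, ⟨Or.inl hτ, hAτ⟩, fun i => up_old hK hAK hm hτ hAτ i⟩
  constructor
  · intro h
    refine ⟨star_dn hK A m hm, fun σ hσ => ?_, fun σ hσ i hi => ?_⟩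
    · obtain ⟨τ, hτ, h1⟩ := fwd σ hσ
      exact (h1 n).2.1 (h.top τ hτ)
    · obtain ⟨τ, hτ, h1⟩ := fwd σ hσ
      exact (h1 i).1.1 (h.oth τ hτ i hi)
  · intro h
    refine ⟨hK, fun τ hτ => ?_, fun τ hτ i hi => ?_⟩
    · obtain ⟨σ, hσ, h1⟩ := bwd τ hτ
      exact (h1 n).2.2 (h.top σ hσ)
    · obtain ⟨σ, hσ, h1⟩ := bwd τ hτ
      exact (h1 i).1.2 (h.oth σ hσ i hi)

end star

theorem PLC.dn {n : ℕ} {K : Set (Finset V)} (h : PLC n K) : ∀ T ∈ K, ∀ S, S ⊆ T → S ∈ K := by
  induction h with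
  | base W hW => exact fun T hT S hS => Finset.ssubset_of_subset_of_ssubset hS hT
  | star K A m _ _ _ hm ih => exact star_dn ih A m hm
  | unstar K A m hK _ _ _ _ _ => exact hK

/-- **PL spheres are homology spheres over every field, with all links** -/
theorem PLC.gs {n : ℕ} {K : Set (Finset V)} (h : PLC n K) : GS F n K := by
  induction h with
  | base W hW => exact start W hW
  | star K A m h hA hA' hm ih => exact (star_iff h.dn hA' hA hm).1 ih
  | unstar K A m hK hA hA' hm _ ih => exact (star_iff hK hA' hA hm).2 ih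

end Pool.Agent.V8H27.GC
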